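import Pool.Agent.Helper13.TR.StA

/-!
# Project TR, module MSH: the mesh of the barycentric subdivision
-/

set_option autoImplicit false

namespace Pool.Agent.Helper22.TR

open Set Topology Pool.Agent.Helper13.TR

private lemma coe_lin {n k : ℕ} (v : Av n k) (t : Dl k) :
    (lin v t).1 = ∑ i, t.1 i • (v i).1 := rfl

/-- a simplex whose vertices lie in another one lies in it -/
private lemma range_sub {n k l : ℕ} (v : Av n k) (w : Av n l) (h : ∀ j, w j ∈ range (lin v)) :
    range (lin w) ⊆ range (lin v) := by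
  choose s hs using h
  rintro x ⟨t, rfl⟩
  refine ⟨lin (s : Av k l) t, ?_⟩
  apply Subtype.ext
  rw [coe_lin, coe_lin]
  have h1 : ∀ j, (w j).1 = ∑ i, (s j).1 i • (v i).1 := by
    intro j
    rw [← hs j, coe_lin]
  have h2 : ∀ i, (lin (s : Av k l) t).1 i = ∑ j, t.1 j * (s j).1 i := by
    intro i
    have h3 := congrFun (coe_lin (s : Av k l) t) i
    rw [Finset.sum_apply] at h3
    exact h3
  have e1 : ∑ i, (lin (s : Av k l) t).1 i • (v i).1 = ∑ i, ∑ j, (t.1 j * (s j).1 i) • (v i).1 := by
    refine Finset.sum_congr rfl fun i _ => ?_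
    rw [h2 i, Finset.sum_smul]
  have e2 : ∑ j, t.1 j • (w j).1 = ∑ j, ∑ i, (t.1 j * (s j).1 i) • (v i).1 := by
    refine Finset.sum_congr rfl fun j _ => ?_
    rw [h1 j, Finset.smul_sum]
    refine Finset.sum_congr rfl fun i _ => ?_
    rw [smul_smul]
  exact e1.trans (Finset.sum_comm.trans e2.symm)

private lemma vert_mem {n k : ℕ} (v : Av n k) (i : Fin (k + 1)) : v i ∈ range (lin v) := by
  classical
  refine ⟨stdSimplex.vertex i, ?_⟩
  apply Subtype.ext
  rw [coe_lin, Finset.sum_eq_single i]
  · have : (stdSimplex.vertex i : Dl k).1 i = (1 : ℝ) := by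
      simp
    rw [this, one_smul]
  · intro j _ hj
    have : (stdSimplex.vertex i : Dl k).1 j = (0 : ℝ) := by
      simp [hj]
    rw [this, zero_smul]
  · intro h
    exact absurd (Finset.mem_univ _) h

/-- distances to the points of a simplex are at most the distances to the vertices -/
private lemma dist_le_of_mem {n k : ℕ} (v : Av n k) (b x : Dl n) (R : ℝ)
    (hx : x ∈ range (lin v)) (h : ∀ i, dist b (v i) ≤ R) : dist b x ≤ R := by
  obtain ⟨t, rfl⟩ := hx
  have hsum : ∑ i, t.1 i = 1 := t.2.2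
  rw [Subtype.dist_eq, dist_eq_norm, coe_lin]
  have h1 : b.1 - ∑ i, t.1 i • (v i).1 = ∑ i, t.1 i • (b.1 - (v i).1) := by
    simp only [smul_sub]
    rw [Finset.sum_sub_distrib, ← Finset.sum_smul, hsum, one_smul]
  rw [h1]
  refine (norm_sum_le _ _).trans ?_
  calc ∑ i, ‖t.1 i • (b.1 - (v i).1)‖ ≤ ∑ i, t.1 i * R := by
        refine Finset.sum_le_sum fun i _ => ?_
        rw [norm_smul, Real.norm_eq_abs, abs_of_nonneg (t.2.1 i)]
        refine mul_le_mul_of_nonneg_left ?_ (t.2.1 i)
        have := h i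
        rwa [Subtype.dist_eq, dist_eq_norm] at this
    _ = R := by rw [← Finset.sum_mul, hsum, one_mul]

private lemma bary_mem {n k : ℕ} (v : Av n k) : bary v ∈ range (lin v) := ⟨_, rfl⟩

private lemma bary_dist {n k : ℕ} (v : Av n (k + 1)) (D : ℝ) (hD : ∀ i j, dist (v i) (v j) ≤ D)
    (i : Fin (k + 2)) : dist (bary v) (v i) ≤ ((k : ℝ) + 1) / (k + 2) * D := by
  classical
  have hb : ∀ j, (stdSimplex.barycenter : Dl (k + 1)).1 j = ((k : ℝ) + 2)⁻¹ := by
    intro j
    rw [stdSimplex.barycenter_apply, Fintype.card_fin]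
    push_cast
    congr 1
    ring
  have hk : (0 : ℝ) < (k : ℝ) + 2 := by positivity
  rw [Subtype.dist_eq, dist_eq_norm]
  have h0 : (bary v).1 = ∑ j, ((k : ℝ) + 2)⁻¹ • (v j).1 := by
    unfold bary
    rw [coe_lin]
    refine Finset.sum_congr rfl fun j _ => ?_
    rw [hb j]
  have h1 : (bary v).1 - (v i).1 = ∑ j, ((k : ℝ) + 2)⁻¹ • ((v j).1 - (v i).1) := by
    rw [h0]
    simp only [smul_sub]
    rw [Finset.sum_sub_distrib, Finset.sum_const, Finset.card_univ, Fintype.card_fin,
      ← Nat.cast_smul_eq_nsmul ℝ, smul_smul]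
    have h2 : ((k + 1 + 1 : ℕ) : ℝ) * ((k : ℝ) + 2)⁻¹ = 1 := by
      push_cast
      rw [add_assoc, one_add_one_eq_two]
      exact mul_inv_cancel₀ hk.ne'
    rw [h2, one_smul]
  rw [h1]
  refine (norm_sum_le _ _).trans ?_
  calc ∑ j, ‖((k : ℝ) + 2)⁻¹ • ((v j).1 - (v i).1)‖
      ≤ ∑ j, (if j = i then 0 else ((k : ℝ) + 2)⁻¹ * D) := by
        refine Finset.sum_le_sum fun j _ => ?_
        by_cases hj : j = i
        · rw [if_pos hj, hj, sub_self, smul_zero, norm_zero]
        · rw [if_neg hj, norm_smul, Real.norm_eq_abs, abs_of_pos (inv_pos.2 hk)]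
          refine mul_le_mul_of_nonneg_left ?_ (inv_pos.2 hk).le
          have := hD j i
          rwa [Subtype.dist_eq, dist_eq_norm] at this
    _ = ((k : ℝ) + 1) / (k + 2) * D := by
        rw [Finset.sum_ite, Finset.sum_const_zero, zero_add, Finset.sum_const,
          Finset.filter_ne' Finset.univ i, Finset.card_erase_of_mem (Finset.mem_univ i),
          Finset.card_univ, Fintype.card_fin, nsmul_eq_mul]
        have : ((k + 1 + 1 - 1 : ℕ) : ℝ) = (k : ℝ) + 1 := by
          rw [Nat.add_sub_cancel]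
          push_cast
          ring
        rw [this]
        field_simp

/-- the support of the image of a chain under a linear map -/
private lemma supp_lin {α β : Type} (L : (α →₀ ℤ) →ₗ[ℤ] (β →₀ ℤ)) (c : α →₀ ℤ) (w : β)
    (hw : w ∈ (L c).support) : ∃ u ∈ c.support, w ∈ (L (Finsupp.single u 1)).support := by
  by_contra h
  push Not at h
  have h1 : L c = ∑ u ∈ c.support, c u • L (Finsupp.single u 1) := by
    conv_lhs => rw [← Finsupp.sum_single c]
    rw [Finsupp.sum, map_sum]
    refine Finset.sum_congr rfl fun u _ => ?_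
    rw [← LinearMap.map_smul, Finsupp.smul_single, smul_eq_mul, mul_one]
  rw [Finsupp.mem_support_iff, h1, Finsupp.finsetSum_apply] at hw
  apply hw
  refine Finset.sum_eq_zero fun u hu => ?_
  have h2 := h u hu
  rw [Finsupp.notMem_support_iff] at h2
  rw [Finsupp.smul_apply, h2, smul_zero]

private lemma supp_abd {n k : ℕ} (v : Av n (k + 1)) (u : Av n k)
    (hu : u ∈ (abd k (Finsupp.single v 1)).support) : ∃ i : Fin (k + 2), u = v ∘ i.succAbove := by
  classical
  by_contra h
  push Not at h
  rw [Finsupp.mem_support_iff] at hu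
  apply hu
  unfold abd
  rw [Finsupp.linearCombination_single, one_smul, Finsupp.finsetSum_apply]
  refine Finset.sum_eq_zero fun i _ => ?_
  rw [Finsupp.smul_apply, Finsupp.single_apply, if_neg (fun h' => h i h'.symm), smul_zero]

private lemma supp_acone {n k : ℕ} (b : Dl n) (c : AC n k) (w : Av n (k + 1))
    (hw : w ∈ (acone b c).support) : ∃ w' ∈ c.support, w = (Fin.cons b w' : Av n (k + 1)) := by
  classical
  unfold acone at hw
  rw [Finsupp.lmapDomain_apply] at hw
  have h1 := Finsupp.mapDomain_support hw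
  rw [Finset.mem_image] at h1
  obtain ⟨w', h2, h3⟩ := h1
  exact ⟨w', h2, h3.symm⟩

private lemma face_range {n k : ℕ} (v : Av n (k + 1)) (i : Fin (k + 2)) :
    range (lin (v ∘ i.succAbove)) ⊆ range (lin v) :=
  range_sub _ _ fun _ => vert_mem v _

private lemma cons_range {n k : ℕ} (v : Av n k) (b : Dl n) {l : ℕ} (w' : Av n l)
    (hb : b ∈ range (lin v)) (hw : range (lin w') ⊆ range (lin v)) :
    range (lin (Fin.cons b w' : Av n (l + 1))) ⊆ range (lin v) := by
  refine range_sub _ _ fun a => ?_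
  refine Fin.cases ?_ (fun j => ?_) a
  · exact hb
  · exact hw (vert_mem w' j)

private lemma asd_succ {n k : ℕ} (v : Av n (k + 1)) :
    asd (k + 1) (Finsupp.single v 1) = acone (bary v) (asd k (abd k (Finsupp.single v 1))) := by
  simp only [asd, Finsupp.linearCombination_single, one_smul]

private lemma ath_succ {n k : ℕ} (v : Av n (k + 1)) :
    ath (k + 1) (Finsupp.single v 1) =
      acone (bary v) (Finsupp.single v 1 - ath k (abd k (Finsupp.single v 1))) := by
  simp only [ath, Finsupp.linearCombination_single, one_smul]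

private lemma asd_mesh (n : ℕ) : ∀ (k : ℕ) (v : Av n k) (D : ℝ),
    (∀ i j, dist (v i) (v j) ≤ D) →
    ∀ w ∈ (asd k (Finsupp.single v 1)).support, range (lin w) ⊆ range (lin v) ∧
      ∀ i j, dist (w i) (w j) ≤ (k : ℝ) / (k + 1) * D := by
  intro k
  induction k with
  | zero =>
    intro v D hD w hw
    have h1 : asd 0 (Finsupp.single v 1) = (Finsupp.single v 1 : AC n 0) := rfl
    rw [h1] at hw
    have h2 := Finsupp.support_single_subset hw
    rw [Finset.mem_singleton] at h2
    subst h2
    refine ⟨subset_rfl, fun i j => ?_⟩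
    have h3 : i = j := by
      have hi := i.2
      have hj := j.2
      apply Fin.ext
      omega
    rw [h3, dist_self]
    simp
  | succ k ih =>
    intro v D hD w hw
    rw [asd_succ] at hw
    obtain ⟨w', h1, rfl⟩ := supp_acone _ _ _ hw
    obtain ⟨u, h2, h3⟩ := supp_lin _ _ _ h1
    obtain ⟨i, rfl⟩ := supp_abd _ _ h2
    have hD0 : 0 ≤ D := (dist_nonneg).trans (hD 0 0)
    obtain ⟨h4, h5⟩ := ih (v ∘ i.succAbove) D (fun a b => hD _ _) w' h3
    have h6 : range (lin w') ⊆ range (lin v) := h4.trans (face_range v i)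
    refine ⟨cons_range v _ w' (bary_mem v) h6, ?_⟩
    have hb : ∀ j, dist (bary v) (w' j) ≤ ((k : ℝ) + 1) / (k + 2) * D := fun j =>
      dist_le_of_mem v _ _ _ (h6 (vert_mem w' j)) (bary_dist v D hD)
    have hcast : ((k + 1 : ℕ) : ℝ) / (((k + 1 : ℕ) : ℝ) + 1) = ((k : ℝ) + 1) / (k + 2) := by
      push_cast
      rw [add_assoc, one_add_one_eq_two]
    rw [hcast]
    have hle : (k : ℝ) / (k + 1) ≤ ((k : ℝ) + 1) / (k + 2) := by
      rw [div_le_div_iff₀ (by positivity) (by positivity)]
      nlinarith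
    have hnn : 0 ≤ ((k : ℝ) + 1) / (k + 2) * D := by positivity
    intro a b
    refine Fin.cases ?_ (fun a => ?_) a
    · refine Fin.cases ?_ (fun b => ?_) b
      · rw [dist_self]
        exact hnn
      · exact hb b
    · refine Fin.cases ?_ (fun b => ?_) b
      · rw [dist_comm]
        exact hb a
      · exact (h5 a b).trans (mul_le_mul_of_nonneg_right hle hD0)

private lemma ath_range (n : ℕ) : ∀ (k : ℕ) (v : Av n k),
    ∀ w ∈ (ath k (Finsupp.single v 1)).support, range (lin w) ⊆ range (lin v) := by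
  intro k
  induction k with
  | zero =>
    intro v w hw
    have h1 : ath 0 (Finsupp.single v 1) = (0 : AC n 1) := rfl
    rw [h1] at hw
    simp at hw
  | succ k ih =>
    classical
    intro v w hw
    rw [ath_succ] at hw
    obtain ⟨w', h1, rfl⟩ := supp_acone _ _ _ hw
    refine cons_range v _ w' (bary_mem v) ?_
    have h2 := Finsupp.support_sub h1
    rw [Finset.mem_union] at h2
    rcases h2 with h2 | h2
    · have h3 := Finsupp.support_single_subset h2
      rw [Finset.mem_singleton] at h3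
      rw [h3]
    · obtain ⟨u, h3, h4⟩ := supp_lin _ _ _ h2
      obtain ⟨i, rfl⟩ := supp_abd _ _ h3
      exact (ih _ w' h4).trans (face_range v i)

theorem hMSH : StMSH := ⟨asd_mesh, ath_range⟩

end Pool.Agent.Helper22.TR
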